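import Mathlib
import Pool.Agent.U506.RR.H2
set_option autoImplicit false

/-! The restriction conjecture for the paraboloid in `ℝ^d`, `d = n + 1 ≥ 4`, in the full range
`q > 2d/(d-1)`, for products of an arbitrary bounded multilinear form of bounded functions of one
coordinate and of functions of disjoint pairs of coordinates which, up to a chirp, are of bounded
variation along the rays from a point, without any regularity in the angle: the `n` coordinates are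
split (by `e`) into `m₁` single coordinates and `m₂` pairs, and `f` is the product of
`M(a_1(ξ_(e 1)), …, a_(m₁)(ξ_(e m₁)))` and of `m₂` factors `e^{2πi(α_j·x + β_j|x|²)} F_j(x)`,
`x = ξ_(pair j)`, where `F_j` is a bounded function on the square whose total variation on the ray
from `p_j` in the direction `θ` is at most `V_j(θ)`. Then `‖E f‖_q ≤ C ∏_j ‖V_j‖_{L^q(S¹)}`. -/

namespace Pool.Agent.Results.MP_b7167f_an.AlongRays

open MeasureTheory Set Complex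
open scoped ENNReal NNReal
open Pool.Agent.TH277

/-- The extension operator of the truncated paraboloid in `ℝ^(n+1)`. -/
noncomputable def ext {n : ℕ} (f : (Fin n → ℝ) → ℂ) (y : (Fin n → ℝ) × ℝ) : ℂ :=
  ∫ ξ in Icc (-1 : Fin n → ℝ) 1,
    f ξ * cexp (2 * Real.pi * I * ((∑ j, ξ j * y.1 j + (∑ j, ξ j ^ 2) * y.2 : ℝ) : ℂ))

/-- the point at distance `r` from `p` in the direction `(cos θ, sin θ)` -/
noncomputable def ray (p : ℝ × ℝ) (r θ : ℝ) : ℝ × ℝ :=
  (p.1 + r * Real.cos θ, p.2 + r * Real.sin θ)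

/-- the chirp `e^{2πi(α·x + β|x|²)}` -/
noncomputable def chirp (α : ℝ × ℝ) (β : ℝ) (x : ℝ × ℝ) : ℂ :=
  cexp (2 * Real.pi * I * ((x.1 * α.1 + x.2 * α.2 + (x.1 ^ 2 + x.2 ^ 2) * β : ℝ) : ℂ))

theorem result (m₁ m₂ n : ℕ) (hm₂ : 1 ≤ m₂) (hn : n = m₁ + 2 * m₂) (_hn3 : 3 ≤ n) (q : ℝ)
    (hq : 2 * ((n : ℝ) + 1) / n < q) (D : ℝ) :
    ∃ C : ℝ≥0, ∀ (e : Fin m₁ ⊕ (Fin m₂ ⊕ Fin m₂) ≃ Fin n) (H : Type) [NormedAddCommGroup H]
      [InnerProductSpace ℂ H] [CompleteSpace H]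
      (M : ContinuousMultilinearMap ℂ (fun _ : Fin m₁ => H) ℂ) (a : Fin m₁ → ℝ → H)
      (α : Fin m₂ → ℝ × ℝ) (β : Fin m₂ → ℝ) (p : Fin m₂ → ℝ × ℝ)
      (F : Fin m₂ → ℝ × ℝ → ℂ) (B : ℝ) (V : Fin m₂ → ℝ → ℝ≥0∞),
      (∀ x, ‖M x‖ ≤ ∏ m, ‖x m‖) → (∀ m, StronglyMeasurable (a m)) →
      (∀ m, ∀ u ∈ Icc (-1 : ℝ) 1, ‖a m u‖ ≤ 1) →
      (∀ j, |(p j).1| ≤ D) → (∀ j, |(p j).2| ≤ D) →
      (∀ j, Measurable (F j)) → (∀ j x, ‖F j x‖ ≤ B) → (∀ j x, x ∉ Icc (-1, -1) (1, 1) → F j x = 0) →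
      (∀ j, Measurable (V j)) →
      (∀ j θ, eVariationOn (fun r => F j (ray (p j) r θ)) (Ioi 0) ≤ V j θ) →
      ∫⁻ y : (Fin n → ℝ) × ℝ,
        ‖ext (fun ξ => M (fun m => a m (ξ (e (Sum.inl m)))) *
          ∏ j, (chirp (α j) (β j) (ξ (e (Sum.inr (Sum.inl j))), ξ (e (Sum.inr (Sum.inr j)))) *
            F j (ξ (e (Sum.inr (Sum.inl j))), ξ (e (Sum.inr (Sum.inr j)))))) y‖ₑ ^ q
        ≤ C * ∏ j, ∫⁻ θ in Ioc (-Real.pi) Real.pi, V j θ ^ q := by
  obtain ⟨C, hC⟩ := Pool.Agent.U506.RR.main m₁ m₂ n hm₂ hn q hq (2 * (1 + |D|)) (by positivity)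
  refine ⟨C, ?_⟩
  intro e H _ _ _ M a α β p F B V hM ham hab hp1 hp2 hF hFB hF0 hV hv
  set a' : Fin m₁ → ℝ → H := fun m => (Icc (-1 : ℝ) 1).indicator (a m) with ha'
  have hM1 : ‖M‖ ≤ 1 := by
    apply ContinuousMultilinearMap.opNorm_le_bound zero_le_one
    intro x
    rw [one_mul]
    exact hM x
  have hA : ∀ m, HT.Adm (a' m) := by
    intro m
    constructor
    · exact (ham m).indicator measurableSet_Icc
    · intro u
      by_cases h : u ∈ Icc (-1 : ℝ) 1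
      · simp only [ha', indicator_of_mem h]
        exact hab m u h
      · simp only [ha', indicator_of_notMem h, norm_zero]
        exact zero_le_one
  have hR : ∀ j, ∀ x ∈ CB.Q2, Pool.Agent.U506.RR.ln (x - p j) ≤ 2 * (1 + |D|) := by
    intro j x hx
    have h1 : |x.1| ≤ 1 := abs_le.2 ⟨hx.1.1, hx.2.1⟩
    have h2 : |x.2| ≤ 1 := abs_le.2 ⟨hx.1.2, hx.2.2⟩
    have h3 : |x.1 - (p j).1| ≤ 1 + |D| := by
      have := abs_sub x.1 (p j).1
      have := hp1 j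
      have := le_abs_self D
      linarith
    have h4 : |x.2 - (p j).2| ≤ 1 + |D| := by
      have := abs_sub x.2 (p j).2
      have := hp2 j
      have := le_abs_self D
      linarith
    unfold Pool.Agent.U506.RR.ln
    apply Real.sqrt_le_iff.2
    refine ⟨by positivity, ?_⟩
    simp only [Prod.fst_sub, Prod.snd_sub]
    have h5 := abs_le.1 h3
    have h6 := abs_le.1 h4
    have h7 : (x.1 - (p j).1) ^ 2 ≤ (1 + |D|) ^ 2 := sq_le_sq' (by linarith [h5.1]) h5.2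
    have h8 : (x.2 - (p j).2) ^ 2 ≤ (1 + |D|) ^ 2 := sq_le_sq' (by linarith [h6.1]) h6.2
    nlinarith [sq_nonneg (1 + |D|)]
  have h1 := hC e H M a' hM1 hA α β p F B V hF hFB hF0 hR hV hv
  refine le_trans (le_of_eq ?_) h1
  apply lintegral_congr
  intro y
  congr 2
  unfold ext HT.EE
  apply setIntegral_congr_fun measurableSet_Icc
  intro ξ hξ
  have hc : ∀ m, ξ m ∈ Icc (-1 : ℝ) 1 := fun m => ⟨hξ.1 m, hξ.2 m⟩
  have e1 : (fun m => a' m ((CB.Phi e ξ).1 m)) = fun m => a m (ξ (e (Sum.inl m))) := by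
    ext m
    show a' m (ξ (e (Sum.inl m))) = _
    simp only [ha', indicator_of_mem (hc _)]
  show _ = _ * (M (fun m => a' m ((CB.Phi e ξ).1 m)) * _)
  rw [e1]
  exact mul_comm _ _

end Pool.Agent.Results.MP_b7167f_an.AlongRays
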