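import Pool.Agent.U571.BS.Strong

/-!
# The restriction conjecture for the paraboloid on sets whose horizontal slices are balls

`ext f (x, t) = ∫_{[-1,1]^n} f(ξ) e^{2πi(ξ·x + |ξ|² t)} dξ`, `n = d - 1`, is the extension operator of
the truncated paraboloid in `ℝ^d = ℝ^n × ℝ`. Question Q1 asks whether `‖ext f‖_q ≤ C ‖f‖_∞` for all
`q > 2d/(d-1) = 2(n+1)/n`. By Hölder's inequality this would give, for every measurable set `B`,

  `∫_B |ext f|² ≤ C |B|^{1 - 2/q} ‖f‖_∞²`.

Here this is proved, in every dimension `d ≥ 3` and in the full range `q > 2d/(d-1)`, for all sets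
`B` whose slices `B ∩ {t = const}` are balls, with arbitrary measurable centres `c(t)` and radii
`r(t)` and an arbitrary measurable set of times, in the form

  `∫_B |ext f|² ≤ C |B|^{1 - 2/q} ‖f‖_∞^{2 - 4/q} ‖f‖_2^{4/q}`.

For `d ≥ 4` the end point `q = 2d/(d-1)` is included. As a consequence, the set of times at which
some ball of radius `r` carries more than `σ` of the mass `∫ |ext f(·, t)|²` has measure at most
`C r^{n(q-2)/2} σ^{-q/2} ‖f‖_∞^{q-2} ‖f‖_2²`; for `d ≥ 4` and `q = 2d/(d-1)` this is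
`C r σ^{-(n+1)/n} ‖f‖_∞^{2/n} ‖f‖_2²`.

Proof: duality for the map `f ↦ ext f` on `B` with Gaussian weights in the slices. The kernel for two
times `s, t` is estimated by dispersion, `|s - t|^{-n/2}`, for distant times, by a smoothing property
of the Gaussian pieces, which uses `‖f‖_∞`, if the distance of the times is large compared with the
product of the radii, and trivially otherwise; the resulting quadratic inequality for `∫_B |ext f|²`
is solved. In `d = 3` a logarithm appears; it is absorbed by `q > 3`. Balls of radius less than one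
are treated by the uncertainty principle and Jensen's inequality.
-/

set_option autoImplicit false

open MeasureTheory Metric Set
open scoped Real ENNReal NNReal RealInnerProductSpace

namespace Pool.Agent.Results.MP_b7167f_an.BallSlices

/-- `ℝ^n` -/
abbrev E (n : ℕ) : Type := EuclideanSpace ℝ (Fin n)

/-- the cube `[-1,1]^n` -/
def box (n : ℕ) : Set (E n) := {ξ | ∀ i, -1 ≤ ξ i ∧ ξ i ≤ 1}

/-- the extension operator of the truncated paraboloid in `ℝ^n × ℝ` -/
noncomputable def ext {n : ℕ} (f : E n → ℂ) (x : E n × ℝ) : ℂ :=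
  ∫ ξ in box n, f ξ * Complex.exp (2 * π * Complex.I * ((⟪ξ, x.1⟫ + ‖ξ‖ ^ 2 * x.2 : ℝ) : ℂ))

/-- the set whose slice at height `t ∈ T` is the ball with centre `c t` and radius `r t` -/
def slices {n : ℕ} (T : Set ℝ) (c : ℝ → E n) (r : ℝ → ℝ) : Set (E n × ℝ) :=
  {x | x.2 ∈ T ∧ x.1 ∈ ball (c x.2) (r x.2)}

lemma box_meas (n : ℕ) : MeasurableSet (box n) := by
  have : box n = ⋂ i, ((fun ξ : E n => ξ i) ⁻¹' Icc (-1) 1) := by
    ext ξ
    simp [box]
  rw [this]
  refine MeasurableSet.iInter fun i => ?_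
  exact (by fun_prop : Measurable (fun ξ : E n => ξ i)) measurableSet_Icc

lemma box_sub (n : ℕ) : box n ⊆ closedBall 0 (√n) := by
  intro ξ hξ
  rw [mem_closedBall_zero_iff, EuclideanSpace.norm_eq]
  refine Real.sqrt_le_sqrt ?_
  calc ∑ i, ‖ξ i‖ ^ 2 ≤ ∑ _i : Fin n, (1 : ℝ) := by
        refine Finset.sum_le_sum fun i _ => ?_
        have h := hξ i
        rw [Real.norm_eq_abs, sq_abs]
        nlinarith
    _ = n := by simp

lemma dn_E (n : ℕ) : Pool.Agent.U571.BS.dn (E n) = n := by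
  unfold Pool.Agent.U571.BS.dn
  rw [finrank_euclideanSpace, Fintype.card_fin]

lemma ext_eq {n : ℕ} (f : E n → ℂ) (x : E n) (t : ℝ) :
    ext f (x, t) = Pool.Agent.U571.BS.FU (box n) f (2 * π * t) ((2 * π) • x) := by
  unfold ext Pool.Agent.U571.BS.FU Pool.Agent.U571.BS.ph
  refine integral_congr_ae (Filter.Eventually.of_forall fun ξ => ?_)
  simp only
  congr 2
  rw [inner_smul_right]
  push_cast
  ring

/-- For `q > 2(n+1)/n`, and for `q = 2(n+1)/n` if `n ≥ 3`, there is a constant `C` such that for all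
bounded `f`: (1) `∫_B |ext f|² ≤ C |B|^{1-2/q} ‖f‖_∞^{2-4/q} ‖f‖_2^{4/q}` for every set `B` whose
horizontal slices are balls; (2) for all `r > 0` and `σ`, the set of the times `t` for which
`∫_{B(y,r)} |ext f(x,t)|² dx > σ` for some `y` has measure at most
`C r^{n(q-2)/2} σ^{-q/2} ‖f‖_∞^{q-2} ‖f‖_2²`. -/
theorem result (n : ℕ) (q : ℝ)
    (h : (2 ≤ n ∧ 2 * ((n : ℝ) + 1) / n < q) ∨ (3 ≤ n ∧ 2 * ((n : ℝ) + 1) / n ≤ q)) :
    ∃ C : ℝ≥0, ∀ f : E n → ℂ, MemLp f ∞ (volume.restrict (box n)) →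
      (∀ (T : Set ℝ) (c : ℝ → E n) (r : ℝ → ℝ), MeasurableSet T → Measurable c → Measurable r →
        ∫⁻ x in slices T c r, ‖ext f x‖ₑ ^ 2 ≤
          C * volume (slices T c r) ^ (1 - 2 / q) *
            eLpNorm f ∞ (volume.restrict (box n)) ^ (2 - 4 / q) *
            eLpNorm f 2 (volume.restrict (box n)) ^ (4 / q)) ∧
      (∀ (r : ℝ) (σ : ℝ≥0∞), 0 < r →
        σ ^ (q / 2) * volume {t : ℝ | ∃ y : E n, σ < ∫⁻ x in ball y r, ‖ext f (x, t)‖ₑ ^ 2} ≤
          C * ENNReal.ofReal r ^ (n * (q - 2) / 2) *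
            eLpNorm f ∞ (volume.restrict (box n)) ^ (q - 2) *
            eLpNorm f 2 (volume.restrict (box n)) ^ (2 : ℝ)) := by
  have hn2 : (2 : ℝ) ≤ n := by
    rcases h with h | h
    · exact_mod_cast h.1
    · have : 3 ≤ n := h.1
      exact_mod_cast (by omega : 2 ≤ n)
  have hn0 : (0 : ℝ) < n := by linarith
  have hq2 : 2 < q := by
    have h1 : 2 * ((n : ℝ) + 1) / n = 2 + 2 / n := by field_simp
    have h2 : 0 < 2 / (n : ℝ) := by positivity
    rcases h with h | h
    · have := h.2; rw [h1] at this; linarith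
    · have := h.2; rw [h1] at this; linarith
  have hq0 : 0 < q := by linarith
  set α := 1 - 2 / q with hα
  have hα1 : α < 1 := by
    have : 0 < 2 / q := by positivity
    linarith
  have key : 1 / ((n : ℝ) + 1) ≤ α ↔ 2 * ((n : ℝ) + 1) / n ≤ q := by
    rw [hα, div_le_iff₀ (by positivity), div_le_iff₀ hn0]
    have e : (1 - 2 / q) * ((n : ℝ) + 1) = (n : ℝ) + 1 - 2 * ((n : ℝ) + 1) / q := by ring
    rw [e]
    constructor
    · intro h1
      have h2 : 2 * ((n : ℝ) + 1) / q ≤ n := by linarith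
      rw [div_le_iff₀ hq0] at h2
      linarith
    · intro h1
      have h2 : 2 * ((n : ℝ) + 1) / q ≤ n := by
        rw [div_le_iff₀ hq0]; linarith
      linarith
  have key' : 2 * ((n : ℝ) + 1) / n < q → 1 / ((n : ℝ) + 1) < α := by
    intro h1
    rw [hα, div_lt_iff₀ (by positivity)]
    rw [div_lt_iff₀ hn0] at h1
    have e : (1 - 2 / q) * ((n : ℝ) + 1) = (n : ℝ) + 1 - 2 * ((n : ℝ) + 1) / q := by ring
    rw [e]
    have h2 : 2 * ((n : ℝ) + 1) / q < n := by
      rw [div_lt_iff₀ hq0]; linarith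
    linarith
  have hA : Pool.Agent.U571.BS.Adm (Pool.Agent.U571.BS.dn (E n)) α := by
    rw [dn_E]
    rcases h with h | h
    · exact Or.inl ⟨hn2, key' h.2, hα1.le⟩
    · refine Or.inr ⟨?_, key.2 h.2, hα1.le⟩
      exact_mod_cast h.1
  have hα0 : 0 < α := hA.pos
  obtain ⟨C, hC, HC⟩ := Pool.Agent.U571.BS.main_U (V := E n) (√n) hA
  set v1 := volume (ball (0 : E n) 1) with hv1
  have hv1t : v1 ≠ ∞ := Metric.isBounded_ball.measure_lt_top.ne
  set K1 : ℝ≥0∞ := ENNReal.ofReal C with hK1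
  set K2 : ℝ≥0∞ := ENNReal.ofReal C ^ (q / 2) * (ENNReal.ofReal (2 ^ n) * v1) ^ ((q - 2) / 2)
    with hK2
  have hK1t : K1 ≠ ∞ := ENNReal.ofReal_ne_top
  have hK2t : K2 ≠ ∞ := ENNReal.mul_ne_top
    (ENNReal.rpow_ne_top_of_nonneg (by positivity) ENNReal.ofReal_ne_top)
    (ENNReal.rpow_ne_top_of_nonneg (by linarith) (ENNReal.mul_ne_top ENNReal.ofReal_ne_top hv1t))
  refine ⟨(K1 + K2).toNNReal, fun f hf => ?_⟩
  rw [ENNReal.coe_toNNReal (ENNReal.add_ne_top.2 ⟨hK1t, hK2t⟩)]
  set Mi := eLpNorm f ∞ (volume.restrict (box n)) with hMi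
  set M2 := eLpNorm f 2 (volume.restrict (box n)) with hM2
  have hvb : volume (box n) ≠ ∞ := ne_top_of_le_ne_top
    ((isCompact_closedBall (0 : E n) (√n)).measure_lt_top.ne) (measure_mono (box_sub n))
  have : IsFiniteMeasure (volume.restrict (box n)) :=
    ⟨by rw [Measure.restrict_apply_univ]; exact hvb.lt_top⟩
  have hfi : Integrable f (volume.restrict (box n)) := hf.integrable le_top
  have hcont : Continuous (fun z : ℝ × E n => Pool.Agent.U571.BS.FU (box n) f z.1 z.2) :=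
    Pool.Agent.U571.BS.FU_meas (box_meas n) hfi
  -- the slice bound for the rescaled operator
  have hSB0 : Pool.Agent.U571.BS.SliceBound
      (fun l ξ => ‖Pool.Agent.U571.BS.FU (box n) f l ξ‖ₑ ^ 2)
      (K1 * Mi ^ (2 * α) * M2 ^ (2 * (1 - α))) α := by
    intro T c r hT hc hr
    refine (HC (box n) (box_meas n) (box_sub n) f hf T c r hT hc hr).trans (le_of_eq ?_)
    rw [hK1]
    ring
  have h2π : (1 : ℝ) ≤ 2 * π := by
    have := Real.pi_gt_three
    linarith
  have hSB := hSB0.scale hα0 hα1.le h2π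
  have hGeq : (fun (l : ℝ) (ξ : E n) => ‖Pool.Agent.U571.BS.FU (box n) f (2 * π * l)
      ((2 * π) • ξ)‖ₑ ^ 2) = fun l ξ => ‖ext f (ξ, l)‖ₑ ^ 2 := by
    ext l ξ
    rw [ext_eq]
  rw [hGeq] at hSB
  have hextc : Continuous (fun x : E n × ℝ => ext f x) := by
    have h1 : (fun x : E n × ℝ => ext f x) = fun x : E n × ℝ =>
        Pool.Agent.U571.BS.FU (box n) f ((2 * π * x.2, (2 * π) • x.1) : ℝ × E n).1
          ((2 * π * x.2, (2 * π) • x.1) : ℝ × E n).2 := by
      ext x
      exact ext_eq f x.1 x.2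
    rw [h1]
    exact hcont.comp (by fun_prop : Continuous fun x : E n × ℝ =>
      ((2 * π * x.2, (2 * π) • x.1) : ℝ × E n))
  have e1 : 2 * α = 2 - 4 / q := by rw [hα]; ring
  have e2 : 2 * (1 - α) = 4 / q := by rw [hα]; ring
  constructor
  · intro T c r hT hc hr
    have h1 : ∫⁻ x in slices T c r, ‖ext f x‖ₑ ^ 2 =
        ∫⁻ l in T, ∫⁻ ξ in ball (c l) (r l), ‖ext f (ξ, l)‖ₑ ^ 2 :=
      Pool.Agent.U571.BS.lint_slices hT hc hr (hextc.measurable.enorm.pow_const 2)
    have h2 : volume (slices T c r) = Pool.Agent.U571.BS.vb T c r :=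
      Pool.Agent.U571.BS.volume_slices hT hc hr
    rw [h1, h2]
    refine (hSB T c r hT hc hr).trans ?_
    rw [e1, e2]
    calc K1 * Mi ^ (2 - 4 / q) * M2 ^ (4 / q) * Pool.Agent.U571.BS.vb T c r ^ α
        = K1 * Pool.Agent.U571.BS.vb T c r ^ α * Mi ^ (2 - 4 / q) * M2 ^ (4 / q) := by ring
      _ ≤ (K1 + K2) * Pool.Agent.U571.BS.vb T c r ^ α * Mi ^ (2 - 4 / q) * M2 ^ (4 / q) := by
          gcongr
          exact le_self_add
  · intro r σ hr
    have hGm : Measurable (Function.uncurry (fun (l : ℝ) (ξ : E n) => ‖ext f (ξ, l)‖ₑ ^ 2)) :=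
      (hextc.comp continuous_swap).measurable.enorm.pow_const 2
    have h1 := Pool.Agent.U571.BS.conc hGm hα0 hα1 hSB hr σ
    have a1 : 1 / (1 - α) = q / 2 := by rw [hα]; field_simp; ring
    have a2 : α / (1 - α) = (q - 2) / 2 := by rw [hα]; field_simp; ring
    rw [a1, a2] at h1
    refine h1.trans ?_
    have b1 : (K1 * Mi ^ (2 * α) * M2 ^ (2 * (1 - α))) ^ (q / 2) =
        K1 ^ (q / 2) * Mi ^ (q - 2) * M2 ^ (2 : ℝ) := by
      rw [ENNReal.mul_rpow_of_nonneg _ _ (by positivity),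
        ENNReal.mul_rpow_of_nonneg _ _ (by positivity), ← ENNReal.rpow_mul, ← ENNReal.rpow_mul]
      have c1 : 2 * α * (q / 2) = q - 2 := by rw [hα]; field_simp
      have c2 : 2 * (1 - α) * (q / 2) = 2 := by rw [hα]; field_simp; ring
      rw [c1, c2]
    have b2 : volume (ball (0 : E n) (2 * r)) ^ ((q - 2) / 2) =
        (ENNReal.ofReal (2 ^ n) * v1) ^ ((q - 2) / 2) * ENNReal.ofReal r ^ (n * (q - 2) / 2) := by
      rw [Measure.addHaar_ball_of_pos _ _ (by positivity), finrank_euclideanSpace,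
        Fintype.card_fin, mul_pow, ENNReal.ofReal_mul (by positivity)]
      have c1 : ENNReal.ofReal (2 ^ n) * ENNReal.ofReal (r ^ n) * volume (ball (0 : E n) 1) =
          (ENNReal.ofReal (2 ^ n) * v1) * ENNReal.ofReal r ^ n := by
        rw [ENNReal.ofReal_pow hr.le, hv1]; ring
      rw [c1, ENNReal.mul_rpow_of_nonneg _ _ (by linarith), ← ENNReal.rpow_natCast,
        ← ENNReal.rpow_mul]
      congr 2
      ring
    rw [b1, b2]
    calc K1 ^ (q / 2) * Mi ^ (q - 2) * M2 ^ (2 : ℝ) *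
          ((ENNReal.ofReal (2 ^ n) * v1) ^ ((q - 2) / 2) * ENNReal.ofReal r ^ (n * (q - 2) / 2))
        = K2 * ENNReal.ofReal r ^ (n * (q - 2) / 2) * Mi ^ (q - 2) * M2 ^ (2 : ℝ) := by
          rw [hK2, hK1]; ring
      _ ≤ _ := by
          gcongr
          exact le_add_self

end Pool.Agent.Results.MP_b7167f_an.BallSlices
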