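import Mathlib
import Pool.Agent.U515.PL.B8
import Pool.Agent.TH277.HT.K
set_option autoImplicit false

/-!
# The restriction conjecture for the paraboloid: lifting functions to higher dimensions

Split the `n` coordinates of `ξ ∈ [-1,1]^n` into `r` blocks (arbitrary sizes) and let
`ρ(ξ) ∈ ℝ^r` be the vector of the Euclidean lengths of the blocks (for a block with one coordinate,
the coordinate itself). A bounded function `G` on `[-1,1]^r` has the lift `f(ξ) = G(ρ(ξ))`,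
extended by zero, to `[-1,1]^n`.

* (lifting principle) If the extension `E G` for the paraboloid in `ℝ^(r+1)` is in `L^P`, then the
  extension `E f` for the paraboloid in `ℝ^(n+1)` is in `L^q` whenever
  `(q - 2)((n-r)/2 + 1/(P-2)) > 1`, with a bound which depends only on the `L^P` norm of `E G`.
* (full range) If `E G ∈ L^P(ℝ^(r+1))` for all `P > 2(r+1)/r`, the full range of the conjecture in
  `ℝ^(r+1)`, then `E f ∈ L^q(ℝ^(n+1))` for all `q > 2(n+1)/n`, the full range in `ℝ^(n+1)`.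
* (unconditional consequence) For `r ≥ 2` the estimate of the conjecture holds in the full range
  `q > 2(n+1)/n` for all functions `f = M(a_1(ρ_1), …, a_r(ρ_r)) ∏_p g_p(ρ_(i_p), ρ_(j_p))`, where
  `M` is a bounded multilinear form on a Hilbert space, the `a_m` are arbitrary bounded measurable
  functions with values in the Hilbert space and the `g_p(u, v)` are bounded, measurable in `u` and
  of bounded `2`-variation in `v`; for example for products of arbitrary bounded radial functions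
  of the blocks, and for `r = 2` for all `g(|ξ'|, |ξ''|)` that are arbitrary in `|ξ'|` and of
  bounded `2`-variation in `|ξ''|`.

The lifting principle is a statement about each single function; no estimate for other functions is
assumed. Its proof lifts one block after the other. For one block of size `k ≥ 2` it combines, for
fixed `|x'| = s`, the asymptotics of the Bessel function, Plancherel's theorem in the remaining
variables, an interpolation with the `L^P` bound of the base, and the multiplication with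
`s_+^((k-1)/2)`, which is the Fourier transform of an integrable function on the relevant half line.
-/

namespace Pool.Agent.Results.MP_b7167f_an.PolyradialLifts

open MeasureTheory Set Complex
open scoped ENNReal NNReal
open Pool.Agent.TH277
open Pool.Agent.U515.PL (EX NL Cb cnt rho rho_cube multi)

/-- The extension operator of the truncated paraboloid in `ℝ^(n+1)`. -/
noncomputable def ext {n : ℕ} (f : (Fin n → ℝ) → ℂ) (y : (Fin n → ℝ) × ℝ) : ℂ :=
  ∫ ξ in Icc (-1 : Fin n → ℝ) 1,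
    f ξ * cexp (2 * Real.pi * I * ((∑ j, ξ j * y.1 j + (∑ j, ξ j ^ 2) * y.2 : ℝ) : ℂ))

/-- The coordinates `ξ_1, …, ξ_n` are split into blocks by the map `b`, coordinate `i` belongs to
block `b i`. The vector of the lengths of the blocks, where for a block with only one coordinate the
coordinate itself is taken (with its sign). -/
noncomputable def len {n r : ℕ} (b : Fin n → Fin r) (ξ : Fin n → ℝ) (j : Fin r) : ℝ :=
  if (Finset.univ.filter fun i => b i = j).card = 1 then ∑ i with b i = j, ξ i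
  else √(∑ i with b i = j, ξ i ^ 2)

open Classical in
/-- The lift of the function `G` on `[-1,1]^r`: the function `G(len b ξ)`, extended by zero. -/
noncomputable def lift {n r : ℕ} (b : Fin n → Fin r) (G : (Fin r → ℝ) → ℂ) (ξ : Fin n → ℝ) : ℂ :=
  if len b ξ ∈ Icc (-1 : Fin r → ℝ) 1 then G (len b ξ) else 0

/-- For non overlapping intervals `[a_k, b_k]` in `[-1,1]`, `k < N`, one has
`∑ |h(b_k) - h(a_k)|² ≤ 1`: the `2`-variation of `h` on `[-1,1]` is at most one. -/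
def TwoVariation (h : ℝ → ℂ) : Prop :=
  ∀ (N : ℕ) (a b : ℕ → ℝ), (∀ k < N, -1 ≤ a k ∧ a k ≤ b k ∧ b k ≤ 1) →
    (∀ k, k + 1 < N → b k ≤ a (k + 1)) → ∑ k ∈ Finset.range N, ‖h (b k) - h (a k)‖ ^ 2 ≤ 1

/-! ### Proofs -/

theorem len_eq {n r : ℕ} (b : Fin n → Fin r) (ξ : Fin n → ℝ) : len b ξ = rho b ξ := by
  funext j
  unfold len rho
  have h1 : (Finset.univ.filter fun i => b i = j).card = cnt b j := by
    rw [Finset.card_filter]
    rfl
  rw [h1, Finset.sum_filter, Finset.sum_filter]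

theorem ext_eq {n : ℕ} (f : (Fin n → ℝ) → ℂ) (y : (Fin n → ℝ) × ℝ) :
    ext f y = EX ((Icc (-1 : Fin n → ℝ) 1).indicator f) y := by
  unfold ext EX
  rw [← integral_indicator measurableSet_Icc]
  congr 1
  funext ξ
  by_cases h : ξ ∈ Icc (-1 : Fin n → ℝ) 1
  · rw [indicator_of_mem h, indicator_of_mem h, mul_comm]
    rfl
  · rw [indicator_of_notMem h, indicator_of_notMem h, mul_zero]

theorem cb_of {r : ℕ} {G : (Fin r → ℝ) → ℂ} (hG : Measurable G)
    (hb : ∀ ρ ∈ Icc (-1 : Fin r → ℝ) 1, ‖G ρ‖ ≤ 1) :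
    Cb ((Icc (-1 : Fin r → ℝ) 1).indicator G) := by
  refine ⟨hG.indicator measurableSet_Icc, fun ρ => ?_, fun ρ h => indicator_of_notMem h _⟩
  by_cases h : ρ ∈ Icc (-1 : Fin r → ℝ) 1
  · rw [indicator_of_mem h]; exact hb ρ h
  · rw [indicator_of_notMem h, norm_zero]; exact zero_le_one

theorem lift_eq {n r : ℕ} (b : Fin n → Fin r) (G : (Fin r → ℝ) → ℂ) :
    (Icc (-1 : Fin n → ℝ) 1).indicator (lift b G) =
      fun ξ => (Icc (-1 : Fin r → ℝ) 1).indicator G (rho b ξ) := by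
  funext ξ
  by_cases h : rho b ξ ∈ Icc (-1 : Fin r → ℝ) 1
  · rw [indicator_of_mem h, indicator_of_mem (rho_cube b ξ h)]
    unfold lift
    rw [len_eq, if_pos h]
  · rw [indicator_of_notMem h]
    have h1 : lift b G ξ = 0 := by
      unfold lift
      rw [len_eq, if_neg h]
    by_cases h2 : ξ ∈ Icc (-1 : Fin n → ℝ) 1
    · rw [indicator_of_mem h2, h1]
    · rw [indicator_of_notMem h2]

theorem NL_ext {n : ℕ} (q : ℝ) (f : (Fin n → ℝ) → ℂ) :
    ∫⁻ y, ‖ext f y‖ₑ ^ q = NL q ((Icc (-1 : Fin n → ℝ) 1).indicator f) := by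
  unfold NL
  simp only [ext_eq]

/-- the lifting principle -/
theorem lifting (n r : ℕ) (b : Fin n → Fin r) (hb : Function.Surjective b) (P q A : ℝ) (hP : 2 < P)
    (h : 1 < (q - 2) * (((n : ℝ) - r) / 2 + 1 / (P - 2))) :
    ∃ C : ℝ≥0, ∀ G : (Fin r → ℝ) → ℂ, Measurable G →
      (∀ ρ ∈ Icc (-1 : Fin r → ℝ) 1, ‖G ρ‖ ≤ 1) →
      ∫⁻ y, ‖ext G y‖ₑ ^ P ≤ ENNReal.ofReal A →
      ∫⁻ y, ‖ext (lift b G) y‖ₑ ^ q ≤ C := by
  obtain ⟨C, hC, hm⟩ := multi (κ := Fin r) _ (Fin n) b hb rfl P q (|A| + 1) hP (by positivity) (by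
    rw [Fintype.card_fin, Fintype.card_fin]; exact h)
  refine ⟨C.toNNReal, fun G hG hG1 hGA => ?_⟩
  rw [NL_ext, lift_eq]
  refine (hm _ (cb_of hG hG1) ?_).trans (le_of_eq rfl)
  rw [← NL_ext]
  exact hGA.trans (ENNReal.ofReal_le_ofReal (by linarith [le_abs_self A]))

theorem exists_P0 (a : ℝ) (ha : 0 ≤ a) (B q : ℝ) (hB : 0 < B)
    (h : 1 < (q - 2) * (a + B)) : ∃ P : ℝ, 2 < P ∧ 1 / (P - 2) < B ∧
    1 < (q - 2) * (a + 1 / (P - 2)) := by
  have hq : 0 < q - 2 := by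
    by_contra hc
    have : (q - 2) * (a + B) ≤ 0 :=
      mul_nonpos_of_nonpos_of_nonneg (not_lt.1 hc) (by linarith)
    linarith
  have h1 : 1 / (q - 2) - a < B := by
    have h2 : 1 / (q - 2) < a + B := by
      rw [div_lt_iff₀ hq, mul_comm]
      exact h
    linarith
  obtain ⟨v, hv1, hv2⟩ := exists_between (max_lt h1 hB)
  have hv0 : 0 < v := lt_of_le_of_lt (le_max_right _ _) hv1
  have hv3 : 1 / (q - 2) - a < v := lt_of_le_of_lt (le_max_left _ _) hv1
  refine ⟨2 + 1 / v, by linarith [one_div_pos.2 hv0], ?_, ?_⟩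
  · rw [add_sub_cancel_left, one_div_one_div]
    exact hv2
  · rw [add_sub_cancel_left, one_div_one_div]
    have h4 : 1 / (q - 2) < a + v := by linarith
    rw [div_lt_iff₀ hq] at h4
    rw [mul_comm]
    exact h4

theorem ext_smul {n : ℕ} (c : ℂ) (f : (Fin n → ℝ) → ℂ) (y : (Fin n → ℝ) × ℝ) :
    ext (fun ξ => c * f ξ) y = c * ext f y := by
  unfold ext
  rw [← integral_const_mul]
  congr 1
  funext ξ
  ring

theorem int_smul {n : ℕ} (q : ℝ) (hq : 0 ≤ q) (c : ℂ) (f : (Fin n → ℝ) → ℂ) :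
    ∫⁻ y, ‖ext (fun ξ => c * f ξ) y‖ₑ ^ q = ‖c‖ₑ ^ q * ∫⁻ y, ‖ext f y‖ₑ ^ q := by
  simp only [ext_smul, enorm_mul, ENNReal.mul_rpow_of_nonneg _ _ hq]
  rw [lintegral_const_mul']
  exact ENNReal.rpow_ne_top_of_nonneg hq enorm_ne_top

/-- the full range -/
theorem lifting_full (n r : ℕ) (hr : 1 ≤ r) (b : Fin n → Fin r) (hb : Function.Surjective b) :
    (∀ G : (Fin r → ℝ) → ℂ, Measurable G → (∃ B : ℝ, ∀ ρ, ‖G ρ‖ ≤ B) →
      (∀ P : ℝ, 2 * ((r : ℝ) + 1) / r < P → ∫⁻ y, ‖ext G y‖ₑ ^ P < ⊤) →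
      ∀ q : ℝ, 2 * ((n : ℝ) + 1) / n < q → ∫⁻ y, ‖ext (lift b G) y‖ₑ ^ q < ⊤) := by
  rintro G hGm ⟨B, hB⟩ hfull q hq
  have hrn : r ≤ n := by
    have := Fintype.card_le_of_surjective b hb
    simpa using this
  have hr' : (1 : ℝ) ≤ r := by exact_mod_cast hr
  have hrn' : (r : ℝ) ≤ n := by exact_mod_cast hrn
  have hn : 0 < (n : ℝ) := by linarith
  have h1 : 1 < (q - 2) * (((n : ℝ) - r) / 2 + (r : ℝ) / 2) := by
    rw [div_lt_iff₀ hn] at hq
    have e : ((n : ℝ) - r) / 2 + (r : ℝ) / 2 = (n : ℝ) / 2 := by ring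
    rw [e]
    nlinarith
  obtain ⟨P, hP, hPB, hPq⟩ := exists_P0 (((n : ℝ) - r) / 2) (by linarith) ((r : ℝ) / 2) q
    (by positivity) h1
  have hPr : 2 * ((r : ℝ) + 1) / r < P := by
    have hP2 : 0 < P - 2 := by linarith
    rw [div_lt_iff₀ hP2] at hPB
    rw [div_lt_iff₀ (by linarith)]
    nlinarith
  have hq0 : 0 ≤ q := by
    by_contra hc
    have h2 : 0 ≤ ((n : ℝ) - r) / 2 + (r : ℝ) / 2 := by linarith
    nlinarith
  -- normalisation
  set B' : ℝ := |B| + 1 with hB'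
  have hB'0 : 0 < B' := by positivity
  set c : ℂ := ((B'⁻¹ : ℝ) : ℂ) with hc
  have hG'b : ∀ ρ ∈ Icc (-1 : Fin r → ℝ) 1, ‖c * G ρ‖ ≤ 1 := by
    intro ρ _
    rw [hc, norm_mul, Complex.norm_real, Real.norm_of_nonneg (inv_nonneg.2 hB'0.le),
      inv_mul_le_iff₀ hB'0, mul_one]
    exact (hB ρ).trans ((le_abs_self B).trans (by linarith))
  have hfin : ∫⁻ y, ‖ext (fun ρ => c * G ρ) y‖ₑ ^ P < ⊤ := by
    rw [int_smul P (by linarith) c G]
    exact ENNReal.mul_lt_top (ENNReal.rpow_lt_top_of_nonneg (by linarith) enorm_ne_top)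
      (hfull P hPr)
  obtain ⟨C, hC⟩ := lifting n r b hb P q (∫⁻ y, ‖ext (fun ρ => c * G ρ) y‖ₑ ^ P).toReal hP hPq
  have h2 := hC (fun ρ => c * G ρ) (hGm.const_mul c) hG'b (by rw [ENNReal.ofReal_toReal hfin.ne])
  have h3 : lift b G = fun ξ => ((B' : ℝ) : ℂ) * lift b (fun ρ => c * G ρ) ξ := by
    funext ξ
    unfold lift
    split_ifs
    · rw [hc, ← mul_assoc, ← Complex.ofReal_mul, mul_inv_cancel₀ hB'0.ne', Complex.ofReal_one,
        one_mul]
    · rw [mul_zero]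
  rw [h3, int_smul q hq0]
  exact ENNReal.mul_lt_top (ENNReal.rpow_lt_top_of_nonneg hq0 enorm_ne_top)
    (h2.trans_lt ENNReal.coe_lt_top)

theorem base (n : ℕ) (hn : 2 ≤ n) (q : ℝ) (hq : 2 * ((n : ℝ) + 1) / n < q) (r : ℕ) :
    ∃ C : ℝ≥0, ∀ (H : Type) [NormedAddCommGroup H] [InnerProductSpace ℂ H] [CompleteSpace H]
      (M : ContinuousMultilinearMap ℂ (fun _ : Fin n => H) ℂ) (a : Fin n → ℝ → H)
      (i j : Fin r → Fin n) (g : Fin r → ℝ × ℝ → ℂ),
      (∀ x, ‖M x‖ ≤ ∏ m, ‖x m‖) → (∀ m, StronglyMeasurable (a m)) →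
      (∀ m, ∀ u ∈ Icc (-1 : ℝ) 1, ‖a m u‖ ≤ 1) →
      (∀ p, i p ≠ j p) → (∀ p, Measurable (g p)) →
      (∀ p, ∀ u ∈ Icc (-1 : ℝ) 1, ∀ v ∈ Icc (-1 : ℝ) 1, ‖g p (u, v)‖ ≤ 1) →
      (∀ p, ∀ u ∈ Icc (-1 : ℝ) 1, TwoVariation fun v => g p (u, v)) →
      ∫⁻ y : (Fin n → ℝ) × ℝ,
        ‖ext (fun ξ => M (fun m => a m (ξ m)) * ∏ p, g p (ξ (i p), ξ (j p))) y‖ₑ ^ q ≤ C := by
  obtain ⟨C, hC⟩ := HT.main n hn q hq r
  refine ⟨C, ?_⟩
  intro H _ _ _ M a i j g hM ham hab hij hgm hgb hgv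
  -- truncations
  set a' : Fin n → ℝ → H := fun m => (Icc (-1 : ℝ) 1).indicator (a m) with ha'
  set g' : Fin r → ℝ × ℝ → ℂ := fun p =>
    (Icc (-1 : ℝ) 1 ×ˢ Icc (-1 : ℝ) 1).indicator (g p) with hg'
  have hs : HT.Sch n fun ξ => M (fun m => a' m (ξ m)) := by
    refine ⟨H, inferInstance, inferInstance, inferInstance, M, a', ?_, ?_, fun ξ => rfl⟩
    · apply ContinuousMultilinearMap.opNorm_le_bound zero_le_one
      intro x
      rw [one_mul]
      exact hM x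
    · intro m
      constructor
      · exact (ham m).indicator measurableSet_Icc
      · intro u
        by_cases h : u ∈ Icc (-1 : ℝ) 1
        · simp only [ha', indicator_of_mem h]
          exact hab m u h
        · simp only [ha', indicator_of_notMem h, norm_zero]
          exact zero_le_one
  have h1 := hC i j g' hij (fun p => (hgm p).indicator (measurableSet_Icc.prod measurableSet_Icc))
    (by
      intro p x
      by_cases h : x ∈ Icc (-1 : ℝ) 1 ×ˢ Icc (-1 : ℝ) 1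
      · simp only [hg', indicator_of_mem h]
        exact hgb p x.1 h.1 x.2 h.2
      · simp only [hg', indicator_of_notMem h, norm_zero]
        exact zero_le_one)
    (by
      intro p u N b c hbc hcb
      by_cases hu : u ∈ Icc (-1 : ℝ) 1
      · refine le_trans (le_of_eq ?_) (hgv p u hu N b c hbc hcb)
        apply Finset.sum_congr rfl
        intro k hk
        have hk2 := hbc k (Finset.mem_range.1 hk)
        have m1 : (u, c k) ∈ Icc (-1 : ℝ) 1 ×ˢ Icc (-1 : ℝ) 1 :=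
          ⟨hu, hk2.1.trans hk2.2.1, hk2.2.2⟩
        have m2 : (u, b k) ∈ Icc (-1 : ℝ) 1 ×ˢ Icc (-1 : ℝ) 1 :=
          ⟨hu, hk2.1, hk2.2.1.trans hk2.2.2⟩
        simp only [hg', indicator_of_mem m1, indicator_of_mem m2]
      · have m1 : ∀ v, g' p (u, v) = 0 := fun v => indicator_of_notMem (fun h => hu h.1) _
        simp only [m1, sub_self, norm_zero]
        simp) _ hs
  refine le_trans (le_of_eq ?_) h1
  apply lintegral_congr
  intro y
  congr 2
  unfold ext HT.EE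
  apply setIntegral_congr_fun measurableSet_Icc
  intro ξ hξ
  have hc : ∀ m, ξ m ∈ Icc (-1 : ℝ) 1 := fun m => ⟨hξ.1 m, hξ.2 m⟩
  have e1 : (fun m => a' m (ξ m)) = fun m => a m (ξ m) := by
    ext m
    simp only [ha', indicator_of_mem (hc m)]
  have e2 : ∀ p, g' p (ξ (i p), ξ (j p)) = g p (ξ (i p), ξ (j p)) := fun p =>
    indicator_of_mem (show (ξ (i p), ξ (j p)) ∈ Icc (-1 : ℝ) 1 ×ˢ Icc (-1 : ℝ) 1 from
      ⟨hc _, hc _⟩) _
  simp only [e2]
  rw [e1, mul_comm]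
  rfl

theorem tensors (n r : ℕ) (hr : 2 ≤ r) (b : Fin n → Fin r) (hb : Function.Surjective b) (q : ℝ)
    (hq : 2 * ((n : ℝ) + 1) / n < q) (s : ℕ) :
    ∃ C : ℝ≥0, ∀ (H : Type) [NormedAddCommGroup H] [InnerProductSpace ℂ H] [CompleteSpace H]
      (M : ContinuousMultilinearMap ℂ (fun _ : Fin r => H) ℂ) (a : Fin r → ℝ → H)
      (i j : Fin s → Fin r) (g : Fin s → ℝ × ℝ → ℂ),
      (∀ x, ‖M x‖ ≤ ∏ m, ‖x m‖) → (∀ m, StronglyMeasurable (a m)) →
      (∀ m, ∀ u ∈ Icc (-1 : ℝ) 1, ‖a m u‖ ≤ 1) →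
      (∀ p, i p ≠ j p) → (∀ p, Measurable (g p)) →
      (∀ p, ∀ u ∈ Icc (-1 : ℝ) 1, ∀ v ∈ Icc (-1 : ℝ) 1, ‖g p (u, v)‖ ≤ 1) →
      (∀ p, ∀ u ∈ Icc (-1 : ℝ) 1, TwoVariation fun v => g p (u, v)) →
      ∫⁻ y : (Fin n → ℝ) × ℝ, ‖ext (lift b fun ρ => M (fun m => a m (ρ m)) *
        ∏ p, g p (ρ (i p), ρ (j p))) y‖ₑ ^ q ≤ C := by
  have hrn : r ≤ n := by
    have := Fintype.card_le_of_surjective b hb
    simpa using this
  have hr' : (2 : ℝ) ≤ r := by exact_mod_cast hr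
  have hrn' : (r : ℝ) ≤ n := by exact_mod_cast hrn
  have hn : 0 < (n : ℝ) := by linarith
  have h1 : 1 < (q - 2) * (((n : ℝ) - r) / 2 + (r : ℝ) / 2) := by
    rw [div_lt_iff₀ hn] at hq
    have e : ((n : ℝ) - r) / 2 + (r : ℝ) / 2 = (n : ℝ) / 2 := by ring
    rw [e]
    nlinarith
  obtain ⟨P, hP, hPB, hPq⟩ := exists_P0 (((n : ℝ) - r) / 2) (by linarith) ((r : ℝ) / 2) q
    (by positivity) h1
  have hPr : 2 * ((r : ℝ) + 1) / r < P := by
    have hP2 : 0 < P - 2 := by linarith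
    rw [div_lt_iff₀ hP2] at hPB
    rw [div_lt_iff₀ (by linarith)]
    nlinarith
  obtain ⟨A, hA⟩ := base r hr P hPr s
  obtain ⟨C, hC⟩ := lifting n r b hb P q (A : ℝ) hP hPq
  refine ⟨C, ?_⟩
  intro H _ _ _ M a i j g hM ham hab hij hgm hgb hgv
  refine hC _ ?_ ?_ ?_
  · refine Measurable.mul ?_ ?_
    · exact (M.cont.comp_stronglyMeasurable (HT.tuple_meas (fun m (ρ : Fin r → ℝ) => a m (ρ m))
        fun m => (ham m).comp_measurable (measurable_pi_apply m))).measurable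
    · refine Finset.measurable_prod _ fun p _ => (hgm p).comp ?_
      exact (measurable_pi_apply _).prodMk (measurable_pi_apply _)
  · intro ρ hρ
    have hc : ∀ m, ρ m ∈ Icc (-1 : ℝ) 1 := fun m => ⟨hρ.1 m, hρ.2 m⟩
    rw [norm_mul, norm_prod]
    refine mul_le_one₀ ((hM _).trans (Finset.prod_le_one (fun _ _ => norm_nonneg _)
      fun m _ => hab m _ (hc m))) (Finset.prod_nonneg fun _ _ => norm_nonneg _)
      (Finset.prod_le_one (fun _ _ => norm_nonneg _) fun p _ => hgb p _ (hc _) _ (hc _))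
  · refine (hA H M a i j g hM ham hab hij hgm hgb hgv).trans (le_of_eq ?_)
    rw [ENNReal.ofReal_coe_nnreal]

/-- **Theorem.** Let the `n` coordinates be split into `r ≥ 1` non-empty blocks.

1. (With exponents.) Let `P > 2` and `(q - 2)((n-r)/2 + 1/(P-2)) > 1`. There is a constant `C` such
that for all measurable `G` on `[-1,1]^r` with `|G| ≤ 1` and `‖E G‖_P^P ≤ A` the lift of `G` to
`[-1,1]^n` satisfies `‖E (lift b G)‖_q^q ≤ C`.

2. (Full range.) If `G` is measurable and bounded and `E G ∈ L^P(ℝ^(r+1))` for all `P > 2(r+1)/r`,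
then `E (lift b G) ∈ L^q(ℝ^(n+1))` for all `q > 2(n+1)/n`.

3. (Unconditional consequence.) Let `r ≥ 2` and `q > 2(n+1)/n`. For every `s` there is a constant
`C` such that `‖E f‖_q^q ≤ C` for all functions `f` on `[-1,1]^n` of the form
`f(ξ) = M(a_1(ρ_1), …, a_r(ρ_r)) ∏_(p ≤ s) g_p(ρ_(i_p), ρ_(j_p))`, `ρ = len b ξ` (and zero if
`ρ ∉ [-1,1]^r`), where `M` is a bounded multilinear form on a complex Hilbert space of norm at most
one, the `a_m` are measurable with values in the unit ball of the Hilbert space, and the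
`g_p(u, v)` are measurable, bounded by one and of `2`-variation at most one in `v`. -/
theorem result (n r : ℕ) (hr : 1 ≤ r) (b : Fin n → Fin r) (hb : Function.Surjective b) :
    (∀ P q A : ℝ, 2 < P → 1 < (q - 2) * (((n : ℝ) - r) / 2 + 1 / (P - 2)) →
      ∃ C : ℝ≥0, ∀ G : (Fin r → ℝ) → ℂ, Measurable G →
        (∀ ρ ∈ Icc (-1 : Fin r → ℝ) 1, ‖G ρ‖ ≤ 1) →
        ∫⁻ y, ‖ext G y‖ₑ ^ P ≤ ENNReal.ofReal A →
        ∫⁻ y, ‖ext (lift b G) y‖ₑ ^ q ≤ C) ∧
    (∀ G : (Fin r → ℝ) → ℂ, Measurable G → (∃ B : ℝ, ∀ ρ, ‖G ρ‖ ≤ B) →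
      (∀ P : ℝ, 2 * ((r : ℝ) + 1) / r < P → ∫⁻ y, ‖ext G y‖ₑ ^ P < ⊤) →
      ∀ q : ℝ, 2 * ((n : ℝ) + 1) / n < q → ∫⁻ y, ‖ext (lift b G) y‖ₑ ^ q < ⊤) ∧
    (2 ≤ r → ∀ q : ℝ, 2 * ((n : ℝ) + 1) / n < q → ∀ s : ℕ,
      ∃ C : ℝ≥0, ∀ (H : Type) [NormedAddCommGroup H] [InnerProductSpace ℂ H] [CompleteSpace H]
        (M : ContinuousMultilinearMap ℂ (fun _ : Fin r => H) ℂ) (a : Fin r → ℝ → H)
        (i j : Fin s → Fin r) (g : Fin s → ℝ × ℝ → ℂ),
        (∀ x, ‖M x‖ ≤ ∏ m, ‖x m‖) → (∀ m, StronglyMeasurable (a m)) →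
        (∀ m, ∀ u ∈ Icc (-1 : ℝ) 1, ‖a m u‖ ≤ 1) →
        (∀ p, i p ≠ j p) → (∀ p, Measurable (g p)) →
        (∀ p, ∀ u ∈ Icc (-1 : ℝ) 1, ∀ v ∈ Icc (-1 : ℝ) 1, ‖g p (u, v)‖ ≤ 1) →
        (∀ p, ∀ u ∈ Icc (-1 : ℝ) 1, TwoVariation fun v => g p (u, v)) →
        ∫⁻ y : (Fin n → ℝ) × ℝ, ‖ext (lift b fun ρ => M (fun m => a m (ρ m)) *
          ∏ p, g p (ρ (i p), ρ (j p))) y‖ₑ ^ q ≤ C) :=
  ⟨fun P q A hP h => lifting n r b hb P q A hP h, lifting_full n r hr b hb,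
    fun hr2 q hq s => tensors n r hr2 b hb q hq s⟩

end Pool.Agent.Results.MP_b7167f_an.PolyradialLifts
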