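import Mathlib
import Pool.Agent.N248.RR.Z
set_option autoImplicit false

/-!
# The restriction conjecture for the paraboloid on random regions, in all dimensions

Let `d = n + 1 ≥ 2` and `E f (x) = ∫_{[-1,1]^n} f(ξ) e^{2πi (ξ·x' + |ξ|² x_d)} dξ`. For `0 < a ≤ 1` let
`W` be the union of the unit cubes with index `j ∈ ℤ^d` that are chosen independently with
probability comparable with `(1 + |j|)^(-a)`, a random region of dimension `d - a` at infinity.
Almost surely

* `E` is bounded from `L^s` to `L^q(W)` for all `s ≥ 2` and all `q > 2 (d + 1 - 2a) / (d - 1)`;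
* it is not bounded from `L²` to `L^q(W)` for `q < 2 (d + 1 - 2a) / (d - 1)`;
* it is not bounded from `L^s` to `L^q(W)` for `q < 2 (d - a) / (d - 1)`, for any `s`, not even for
  `s = ∞`.

For `a = 1` both thresholds are `2`: the restriction conjecture holds on these regions in its full
range in all dimensions, even for `f ∈ L²`. For all `a` every range of the extension theorem is
transferred to the random region: if `E` is bounded from `L^s` to `L^p'(ℝ^d)` for all `p' > p`, then
almost surely it is bounded from `L^s` to `L^q(W)` for all `q > p - a (p - 2)`. In particular a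
positive answer to the question in dimension `d` implies that almost surely `E` is bounded from
`L^∞` to `L^q(W)` for all `q > 2 (d - a) / (d - 1)`, the full range.

The proof (project RR of the library, `Pool/Agent/N248/RR`): for a level `λ` the number of the unit
cubes in which `|E f|` exceeds `λ` is controlled for all `f` in the unit ball of `L²` at the same
time, by a net for the level sets (dual Sudakov inequality, packing), the independence of the cubes
and the decay of the Fourier transform of the surface measure.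
-/

namespace Pool.Agent.Results.MP_b7167f_an.RandomRegions

open MeasureTheory Set Metric Complex
open scoped ENNReal NNReal RealInnerProductSpace

/-- the cube `[-1,1]^n` -/
def box (n : ℕ) : Set (EuclideanSpace ℝ (Fin n)) := {ξ | ∀ i, |ξ i| ≤ 1}

/-- the phase `ξ·x' + |ξ|² x_d`, where `x = (x', x_d) ∈ ℝ^d`, `d = n + 1` -/
noncomputable def phase {n : ℕ} (ξ : EuclideanSpace ℝ (Fin n))
    (x : EuclideanSpace ℝ (Fin (n + 1))) : ℝ :=
  ∑ i, ξ i * x i.castSucc + ‖ξ‖ ^ 2 * x (Fin.last n)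

/-- the extension operator for the truncated paraboloid in `ℝ^d`, `d = n + 1` -/
noncomputable def E {n : ℕ} (f : EuclideanSpace ℝ (Fin n) → ℂ)
    (x : EuclideanSpace ℝ (Fin (n + 1))) : ℂ :=
  ∫ ξ in box n, f ξ * Complex.exp (2 * Real.pi * I * phase ξ x)

/-- the unit cube `j + [0,1)^d` -/
def cube {d : ℕ} (j : Fin d → ℤ) : Set (EuclideanSpace ℝ (Fin d)) :=
  {x | ∀ i, (j i : ℝ) ≤ x i ∧ x i < j i + 1}

/-- `A j` is the event that the cube with index `j` is chosen: these events are independent, and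
their probabilities are comparable with `(1 + |j|)^(-a)`. -/
structure Choice {d : ℕ} {Ω : Type} [MeasurableSpace Ω] (P : Measure Ω)
    (A : (Fin d → ℤ) → Set Ω) (a : ℝ) : Prop where
  meas : ∀ j, MeasurableSet (A j)
  indep : ProbabilityTheory.iIndepSet A P
  low : ∃ c : ℝ, 0 < c ∧ ∀ j, ENNReal.ofReal (c * (1 + ‖j‖) ^ (-a)) ≤ P (A j)
  up : ∃ c : ℝ, ∀ j, P (A j) ≤ ENNReal.ofReal (c * (1 + ‖j‖) ^ (-a))

/-- the random region: the union of the chosen cubes -/
def region {d : ℕ} {Ω : Type} (A : (Fin d → ℤ) → Set Ω) (ω : Ω) :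
    Set (EuclideanSpace ℝ (Fin d)) :=
  ⋃ j ∈ {j | ω ∈ A j}, cube j

/-- `‖E f‖_{L^q(W)} ≤ C ‖f‖_{L^s([-1,1]^n)}` for all `f ∈ L^s([-1,1]^n)`, with a finite constant `C` -/
def Bounded {n : ℕ} (s : ℝ≥0∞) (q : ℝ) (W : Set (EuclideanSpace ℝ (Fin (n + 1)))) : Prop :=
  ∃ C : ℝ≥0, ∀ f : EuclideanSpace ℝ (Fin n) → ℂ, MemLp f s (volume.restrict (box n)) →
    eLpNorm (E f) (ENNReal.ofReal q) (volume.restrict W) ≤
      C * eLpNorm f s (volume.restrict (box n))

lemma phase_eq {n : ℕ} (ξ : EuclideanSpace ℝ (Fin n)) (x : EuclideanSpace ℝ (Fin (n + 1))) :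
    ⟪Pool.Agent.R412.RT.Phi ξ, x⟫ = phase ξ x := by
  rw [Pool.Agent.N248.RR.Phi_inner]
  unfold phase
  rw [EuclideanSpace.norm_sq_eq]
  simp only [Real.norm_eq_abs, sq_abs]
  rw [Finset.sum_add_distrib, Finset.sum_mul]
  congr 1
  · exact Finset.sum_congr rfl fun i _ => mul_comm _ _
  · exact Finset.sum_congr rfl fun i _ => mul_comm _ _

open Pool.Agent.N248.RR in
lemma E_eq {n : ℕ} (f : EuclideanSpace ℝ (Fin n) → ℂ) (x : EuclideanSpace ℝ (Fin (n + 1))) :
    E f x = ∫ ξ in box n, ex ((2 * Real.pi) * ⟪Pool.Agent.R412.RT.Phi ξ, x⟫) * f ξ := by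
  unfold E ex
  refine integral_congr_ae (Filter.Eventually.of_forall fun ξ => ?_)
  simp only
  rw [phase_eq, mul_comm]
  congr 2
  push_cast
  ring

open Pool.Agent.N248.RR in
lemma bounded_iff {n : ℕ} (s : ℝ≥0∞) (q : ℝ) (hq : 0 < q)
    (W : Set (EuclideanSpace ℝ (Fin (n + 1)))) :
    Bounded s q W ↔ Bdd (n := n) (2 * Real.pi) (box n) s q W := by
  have hq0 : ENNReal.ofReal q ≠ 0 := (ENNReal.ofReal_pos.2 hq).ne'
  have key : ∀ f : EuclideanSpace ℝ (Fin n) → ℂ,
      eLpNorm (E f) (ENNReal.ofReal q) (volume.restrict W) ^ q =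
        ∫⁻ x in W, ‖∫ ξ in box n,
          ex ((2 * Real.pi) * ⟪Pool.Agent.R412.RT.Phi ξ, x⟫) * f ξ‖ₑ ^ q := by
    intro f
    rw [eLpNorm_eq_lintegral_rpow_enorm_toReal hq0 ENNReal.ofReal_ne_top,
      ENNReal.toReal_ofReal hq.le, ← ENNReal.rpow_mul, one_div, inv_mul_cancel₀ hq.ne',
      ENNReal.rpow_one]
    refine lintegral_congr fun x => ?_
    rw [E_eq]
  constructor
  · rintro ⟨C, hC⟩
    refine ⟨C ^ q, fun f hf => ?_⟩
    rw [← key f]
    refine (ENNReal.rpow_le_rpow (hC f hf) hq.le).trans ?_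
    rw [ENNReal.mul_rpow_of_nonneg _ _ hq.le, ENNReal.coe_rpow_of_nonneg _ hq.le]
  · rintro ⟨C, hC⟩
    refine ⟨C ^ (1 / q), fun f hf => ?_⟩
    have h := hC f hf
    rw [← key f] at h
    have h2 := ENNReal.rpow_le_rpow h (show 0 ≤ 1 / q by positivity)
    rw [← ENNReal.rpow_mul, mul_one_div_cancel hq.ne', ENNReal.rpow_one,
      ENNReal.mul_rpow_of_nonneg _ _ (by positivity : 0 ≤ 1 / q), ← ENNReal.rpow_mul,
      mul_one_div_cancel hq.ne', ENNReal.rpow_one] at h2
    rwa [ENNReal.coe_rpow_of_nonneg _ (by positivity : 0 ≤ 1 / q)]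

open Pool.Agent.N248.RR in
/-- **The restriction conjecture for the paraboloid on random regions.** Let `d = n + 1 ≥ 2`,
`0 < a ≤ 1`, and let `W = region A ω` be the union of the unit cubes that are chosen independently
with probabilities comparable with `(1 + |j|)^(-a)`.

(1) Almost surely: for all `s ≥ 2` and `q > 2 (d + 1 - 2a) / (d - 1)` the extension operator is
bounded from `L^s` to `L^q(W)`; for `0 < q < 2 (d + 1 - 2a) / (d - 1)` it is not bounded from `L²` to
`L^q(W)`; for `0 < q < 2 (d - a) / (d - 1)` it is not bounded from `L^s` to `L^q(W)` for any `s`.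

(2) Let `s ≥ 2`, `p ≥ 2`, and let the extension operator be bounded from `L^s` to `L^p'(ℝ^d)` for
all `p' > p`. Then almost surely it is bounded from `L^s` to `L^q(W)` for all `q > p - a (p - 2)`.

(3) If the answer to the question is positive in dimension `d`, then almost surely the extension
operator is bounded from `L^∞` to `L^q(W)` for all `q > 2 (d - a) / (d - 1)`. -/
theorem result (n : ℕ) (hn : 1 ≤ n) (d : ℝ) (hd : d = n + 1)
    (Ω : Type) [MeasurableSpace Ω] (P : Measure Ω) [IsProbabilityMeasure P]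
    (A : (Fin (n + 1) → ℤ) → Set Ω) (a : ℝ) (ha : 0 < a) (ha1 : a ≤ 1) (hA : Choice P A a) :
    (∀ᵐ ω ∂P,
      (∀ s : ℝ≥0∞, 2 ≤ s → ∀ q : ℝ, 2 * (d + 1 - 2 * a) / (d - 1) < q →
        Bounded s q (region A ω)) ∧
      (∀ q : ℝ, 0 < q → q < 2 * (d + 1 - 2 * a) / (d - 1) → ¬ Bounded 2 q (region A ω)) ∧
      (∀ (s : ℝ≥0∞) (q : ℝ), 0 < q → q < 2 * (d - a) / (d - 1) →
        ¬ Bounded s q (region A ω))) ∧
    (∀ (s : ℝ≥0∞) (p : ℝ), 2 ≤ s → 2 ≤ p → (∀ p' : ℝ, p < p' → Bounded (n := n) s p' univ) →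
      ∀ᵐ ω ∂P, ∀ q : ℝ, p - a * (p - 2) < q → Bounded s q (region A ω)) ∧
    ((∀ q : ℝ, 2 * d / (d - 1) < q → Bounded (n := n) ∞ q univ) →
      ∀ᵐ ω ∂P, ∀ q : ℝ, 2 * (d - a) / (d - 1) < q → Bounded ∞ q (region A ω)) := by
  have hnR : (1 : ℝ) ≤ n := by exact_mod_cast hn
  have hn0 : (0 : ℝ) < n := by linarith
  have hd1 : d - 1 = n := by rw [hd]; ring
  have hpi : (2 * Real.pi : ℝ) ≠ 0 := by positivity
  have hUm : MeasurableSet (box n) := cub_meas n
  have hUc : box n ⊆ cub n := fun x hx => hx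
  have hR : RC P A a := ⟨hA.meas, hA.indep, hA.low, hA.up⟩
  have hcU : cap (0 : EuclideanSpace ℝ (Fin n)) 1 ⊆ box n := by
    intro x hx i
    have := hx i
    simpa using this
  have h1 := bdd_two hn (2 * Real.pi) hpi (box n) hUm hUc P A a ha ha1 hR
  have h2 := not_bdd_two hn (2 * Real.pi) (box n) hUm 0 1 one_pos hcU P A a ha ha1 hR
  have h3 := not_bdd_top hn (2 * Real.pi) hpi (box n) hUc 0 1 one_pos hcU P A a ha ha1 hR
  have hcl : ∀ (s : ℝ≥0∞) (p : ℝ), 2 ≤ s → 2 ≤ p →
      (∀ p' : ℝ, p < p' → Bounded (n := n) s p' univ) →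
      ∀ᵐ ω ∂P, ∀ q : ℝ, p - a * (p - 2) < q → Bounded s q (region A ω) := by
    intro s p hs hp hb
    have h4 := bdd_class hn (2 * Real.pi) hpi (box n) hUm hUc P A a ha ha1 hR s hs p
      hp (fun p' hp' => (bounded_iff s p' (by linarith) univ).1 (hb p' hp'))
    filter_upwards [h4] with ω hω
    intro q hq
    have hq0 : 0 < q := by nlinarith
    exact (bounded_iff s q hq0 _).2 (hω q hq)
  have e1 : (2 + 4 / (n : ℝ)) - a * (4 / n) = 2 * (d + 1 - 2 * a) / (d - 1) := by
    rw [hd1, hd]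
    field_simp
    ring
  refine ⟨?_, hcl, ?_⟩
  · filter_upwards [h1, h2, h3] with ω w1 w2 w3
    refine ⟨fun s hs q hq => ?_, fun q hq0 hq hb => ?_, fun s q hq0 hq hb => ?_⟩
    · have hq0 : 0 < q := by
        refine lt_trans ?_ hq
        rw [hd1]
        have : 0 < d + 1 - 2 * a := by linarith
        positivity
      refine (bounded_iff s q hq0 _).2 (w1 s hs q ?_)
      rw [e1]
      exact hq
    · refine w2 q hq0 ?_ ((bounded_iff 2 q hq0 _).1 hb)
      rw [e1]
      exact hq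
    · refine w3 s q hq0 ?_ ((bounded_iff s q hq0 _).1 hb)
      rw [hd1, lt_div_iff₀ hn0, hd] at hq
      linarith
  · intro hQ
    have hp2 : (2 : ℝ) ≤ 2 * d / (d - 1) := by
      rw [hd1, le_div_iff₀ hn0, hd]
      linarith
    have h6 := hcl ∞ (2 * d / (d - 1)) le_top hp2 hQ
    filter_upwards [h6] with ω hω
    intro q hq
    refine hω q (lt_of_eq_of_lt ?_ hq)
    rw [hd1, hd]
    field_simp
    ring

end Pool.Agent.Results.MP_b7167f_an.RandomRegions
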